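import Pool.Agent.V8H51.RS.Sim1

/-!
# Programs with recursion as circuits
-/

set_option autoImplicit false

namespace Pool.Agent.V8H51.RS

variable {V : Type}

/-- Some node of the circuit computes `f`. -/
def Has (C : Circuit V) (f : (V → Bool) → Bool) : Prop :=
  ∃ i, i < C.length ∧ ∀ x, (C.vals x).getD i false = f x

theorem vals_app (C D : Circuit V) (x : V → Bool) (i : ℕ) (hi : i < C.length) :
    (Circuit.vals (C ++ D) x).getD i false = (C.vals x).getD i false := by
  induction D using List.reverseRecOn with
  | nil => rw [List.append_nil]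
  | append_singleton D N ih =>
    rw [← List.append_assoc, vals_append, ← ih]
    simp only [List.getD_eq_getElem?_getD]
    rw [List.getElem?_append_left]
    rw [vals_length, List.length_append]
    omega

theorem Has.ext {C : Circuit V} {f : (V → Bool) → Bool} (h : Has C f) (D : Circuit V) :
    Has (C ++ D) f := by
  obtain ⟨i, hi, hx⟩ := h
  refine ⟨i, by rw [List.length_append]; omega, fun x => ?_⟩
  rw [vals_app C D x i hi, hx]

theorem has_last (C : Circuit V) (N : Node V) (f : (V → Bool) → Bool)
    (h : ∀ x, N.val x (C.vals x) = f x) : Has (C ++ [N]) f := by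
  refine ⟨C.length, by simp, fun x => ?_⟩
  rw [vals_append]
  simp only [List.getD_eq_getElem?_getD]
  rw [List.getElem?_append_right (by rw [vals_length]), vals_length, ← h x]
  simp

theorem has_gate {C : Circuit V} {f g : (V → Bool) → Bool} (hf : Has C f) (hg : Has C g)
    (op : Bool → Bool → Bool) : ∃ N, Has (C ++ [N]) (fun x => op (f x) (g x)) := by
  obtain ⟨i, hi, hx⟩ := hf
  obtain ⟨j, hj, hy⟩ := hg
  refine ⟨Node.gate op i j, has_last C _ _ fun x => ?_⟩
  simp only [Node.val]
  rw [hx, hy]

theorem has_or (l : List (((V → Bool) → Bool) × ((V → Bool) → Bool))) :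
    ∀ C : Circuit V, (∀ p ∈ l, Has C p.1 ∧ Has C p.2) → ∃ D : Circuit V,
      D.length ≤ 2 * l.length + 1 ∧ Has (C ++ D) (fun x => l.any (fun p => p.1 x && p.2 x)) := by
  induction l with
  | nil =>
    intro C _
    exact ⟨[Node.const false], by simp, has_last C _ _ fun x => rfl⟩
  | cons p l ih =>
    intro C h
    obtain ⟨D, hD, h1⟩ := ih C (fun q hq => h q (List.mem_cons_of_mem _ hq))
    obtain ⟨h2, h3⟩ := h p List.mem_cons_self
    obtain ⟨N, h4⟩ := has_gate (h2.ext D) (h3.ext D) (fun a b => a && b)
    obtain ⟨N', h5⟩ := has_gate h4 (h1.ext [N]) (fun a b => a || b)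
    refine ⟨D ++ [N] ++ [N'], ?_, ?_⟩
    · simp only [List.length_append, List.length_cons, List.length_nil]
      omega
    · rw [← List.append_assoc, ← List.append_assoc]
      have e : (fun x => (p :: l).any (fun p => p.1 x && p.2 x)) =
          fun x => ((p.1 x && p.2 x) || l.any (fun p => p.1 x && p.2 x)) := by
        funext x
        rw [List.any_cons]
      rw [e]
      exact h5

/-- The run from `q` ends in `r`, with recursion depth and so on bounded by `t`. -/
def RP (P : Prog V) (x : V → Bool) : ℕ → P.State → P.State → Prop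
  | 0, _, _ => False
  | t + 1, q, r => match P.act q with
    | Act.ret => q = r
    | Act.read v nxt => RP P x t (nxt (x v)) r
    | Act.call c nxt => ∃ u, RP P x t c u ∧ RP P x t (nxt u) r

theorem RP_ret {P : Prog V} {x : V → Bool} {t : ℕ} {q r : P.State} (e : P.act q = Act.ret) :
    RP P x (t + 1) q r ↔ q = r := by
  rw [RP, e]

theorem RP_read {P : Prog V} {x : V → Bool} {t : ℕ} {q r : P.State} {v : V}
    {nxt : Bool → P.State} (e : P.act q = Act.read v nxt) :
    RP P x (t + 1) q r ↔ RP P x t (nxt (x v)) r := by
  rw [RP, e]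

theorem RP_call {P : Prog V} {x : V → Bool} {t : ℕ} {q r c : P.State}
    {nxt : P.State → P.State} (e : P.act q = Act.call c nxt) :
    RP P x (t + 1) q r ↔ ∃ u, RP P x t c u ∧ RP P x t (nxt u) r := by
  rw [RP, e]

theorem RP_run {P : Prog V} {x : V → Bool} : ∀ (t : ℕ) (q r : P.State), RP P x t q r →
    ∃ L, Run P x q L r := by
  intro t
  induction t with
  | zero => intro q r h; exact h.elim
  | succ t ih =>
    intro q r h
    cases e : P.act q with
    | ret =>
      rw [RP_ret e] at h
      subst h
      exact ⟨[], Run.ret e⟩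
    | read v nxt =>
      rw [RP_read e] at h
      obtain ⟨L, hL⟩ := ih _ _ h
      exact ⟨v :: L, Run.read e hL⟩
    | call c nxt =>
      rw [RP_call e] at h
      obtain ⟨u, h1, h2⟩ := h
      obtain ⟨L, hL⟩ := ih _ _ h1
      obtain ⟨L', hL'⟩ := ih _ _ h2
      exact ⟨L ++ L', Run.call e hL hL'⟩

theorem RP_mono {P : Prog V} {x : V → Bool} : ∀ (t : ℕ) (q r : P.State), RP P x t q r →
    RP P x (t + 1) q r := by
  intro t
  induction t with
  | zero => intro q r h; exact h.elim
  | succ t ih =>
    intro q r h
    cases e : P.act q with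
    | ret =>
      rw [RP_ret e] at h ⊢
      exact h
    | read v nxt =>
      rw [RP_read e] at h ⊢
      exact ih _ _ h
    | call c nxt =>
      rw [RP_call e] at h ⊢
      obtain ⟨u, h1, h2⟩ := h
      exact ⟨u, ih _ _ h1, ih _ _ h2⟩

theorem RP_le {P : Prog V} {x : V → Bool} {t t' : ℕ} (ht : t ≤ t') {q r : P.State}
    (h : RP P x t q r) : RP P x t' q r := by
  induction ht with
  | refl => exact h
  | step _ ih => exact RP_mono _ _ _ ih

theorem run_RP {P : Prog V} {x : V → Bool} {q r : P.State} {L : List V} (h : Run P x q L r) :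
    ∃ t, RP P x t q r := by
  induction h with
  | ret e => exact ⟨1, (RP_ret e).2 rfl⟩
  | read e _ ih =>
    obtain ⟨t, ht⟩ := ih
    exact ⟨t + 1, (RP_read e).2 ht⟩
  | call e _ _ ih1 ih2 =>
    obtain ⟨t, ht⟩ := ih1
    obtain ⟨t', ht'⟩ := ih2
    exact ⟨max t t' + 1, (RP_call e).2 ⟨_, RP_le (le_max_left _ _) ht, RP_le (le_max_right _ _) ht'⟩⟩

theorem RP_congr {P : Prog V} {x : V → Bool} {t t' : ℕ}
    (h : ∀ q r, RP P x t q r ↔ RP P x t' q r) (q r : P.State) :
    RP P x (t + 1) q r ↔ RP P x (t' + 1) q r := by
  cases e : P.act q with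
  | ret => rw [RP_ret e, RP_ret e]
  | read v nxt => rw [RP_read e, RP_read e]; exact h _ _
  | call c nxt =>
    rw [RP_call e, RP_call e]
    exact exists_congr fun u => and_congr (h _ _) (h _ _)

open Classical in
theorem RP_grow (P : Prog V) (x : V → Bool) (t : ℕ) :
    (∀ q r, RP P x t q r ↔ RP P x (t + 1) q r) ∨
      (Finset.univ.filter (fun p : P.State × P.State => RP P x t p.1 p.2)).card <
      (Finset.univ.filter (fun p : P.State × P.State => RP P x (t + 1) p.1 p.2)).card := by
  by_cases h : ∀ q r, RP P x t q r ↔ RP P x (t + 1) q r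
  · exact Or.inl h
  · right
    push Not at h
    obtain ⟨q, r, h1⟩ := h
    have h2 : ¬ RP P x t q r ∧ RP P x (t + 1) q r := by
      rcases h1 with h1 | h1
      · exact absurd (RP_mono _ _ _ h1.1) h1.2
      · exact h1
    refine Finset.card_lt_card (Finset.ssubset_iff_subset_ne.2 ⟨?_, ?_⟩)
    · intro p hp
      rw [Finset.mem_filter] at hp ⊢
      exact ⟨hp.1, RP_mono _ _ _ hp.2⟩
    · intro he
      have h3 : (q, r) ∈ Finset.univ.filter
          (fun p : P.State × P.State => RP P x t p.1 p.2) := by
        rw [he, Finset.mem_filter]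
        exact ⟨Finset.mem_univ _, h2.2⟩
      exact h2.1 (Finset.mem_filter.1 h3).2

open Classical in
theorem RP_stable (P : Prog V) (x : V → Bool) (t : ℕ) :
    (∀ q r, RP P x t q r ↔ RP P x (t + 1) q r) ∨
    t + 1 ≤ (Finset.univ.filter (fun p : P.State × P.State => RP P x (t + 1) p.1 p.2)).card := by
  induction t with
  | zero =>
    rcases RP_grow P x 0 with h | h
    · exact Or.inl h
    · right; omega
  | succ t ih =>
    rcases RP_grow P x (t + 1) with h | h
    · exact Or.inl h
    · rcases ih with h1 | h1
      · exact Or.inl fun q r => RP_congr h1 q r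
      · right; omega

/-- the bound for the depth -/
theorem RP_all (P : Prog V) (x : V → Bool) (q r : P.State) :
    (∃ L, Run P x q L r) ↔ RP P x (Fintype.card P.State ^ 2) q r := by
  classical
  constructor
  · rintro ⟨L, hL⟩
    obtain ⟨t, ht⟩ := run_RP hL
    set T := Fintype.card P.State ^ 2 with hT
    have hst : ∀ q r, RP P x T q r ↔ RP P x (T + 1) q r := by
      rcases RP_stable P x T with h | h
      · exact h
      · have h1 := Finset.card_le_univ
          (Finset.univ.filter (fun p : P.State × P.State => RP P x (T + 1) p.1 p.2))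
        rw [Fintype.card_prod, ← sq, ← hT] at h1
        omega
    have hall : ∀ d : ℕ, ∀ q r, RP P x (T + d) q r ↔ RP P x T q r := by
      intro d
      induction d with
      | zero => intro q r; exact Iff.rfl
      | succ d ih =>
        intro q r
        rw [hst q r]
        exact RP_congr ih q r
    rcases le_total t T with h | h
    · exact RP_le h ht
    · obtain ⟨d, rfl⟩ := Nat.exists_eq_add_of_le h
      exact (hall d q r).1 ht
  · exact RP_run _ _ _

open Classical in
/-- the function computed by `RP` -/
noncomputable def RB (P : Prog V) (t : ℕ) (q r : P.State) : (V → Bool) → Bool :=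
  fun x => decide (RP P x t q r)

theorem RB_step (P : Prog V) (t : ℕ) (C : Circuit V) (h : ∀ q r, Has C (RB P t q r))
    (q r : P.State) : ∃ D : Circuit V, D.length ≤ 2 * Fintype.card P.State + 7 ∧
      Has (C ++ D) (RB P (t + 1) q r) := by
  classical
  cases e : P.act q with
  | ret =>
    refine ⟨[Node.const (decide (q = r))], by simp, has_last C _ _ fun x => ?_⟩
    simp only [Node.val, RB, RP_ret e]
  | read v nxt =>
    have h1 : Has (C ++ [Node.input v]) (fun x => x v) := has_last C _ _ fun x => rfl
    obtain ⟨N, h2⟩ := has_gate h1 h1 (fun a _ => !a)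
    obtain ⟨D, hD, h3⟩ := has_or [((fun x => x v), RB P t (nxt true) r),
      ((fun x => !(x v)), RB P t (nxt false) r)] (C ++ [Node.input v] ++ [N]) (by
      intro p hp
      rcases List.mem_cons.1 hp with rfl | hp
      · exact ⟨h1.ext _, ((h _ _).ext _).ext _⟩
      · rw [List.mem_singleton] at hp
        subst hp
        exact ⟨h2, ((h _ _).ext _).ext _⟩)
    refine ⟨[Node.input v] ++ ([N] ++ D), ?_, ?_⟩
    · simp only [List.length_append, List.length_cons, List.length_nil] at hD ⊢
      omega
    · have e2 : (fun x => [((fun x => x v), RB P t (nxt true) r),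
          ((fun x => !(x v)), RB P t (nxt false) r)].any (fun p => p.1 x && p.2 x)) =
          RB P (t + 1) q r := by
        funext x
        simp only [List.any_cons, List.any_nil, Bool.or_false, RB, RP_read e]
        cases x v <;> simp
      rw [← e2]
      simpa only [List.append_assoc] using h3
  | call c nxt =>
    obtain ⟨D, hD, h3⟩ := has_or ((Finset.univ : Finset P.State).toList.map
      (fun u => (RB P t c u, RB P t (nxt u) r))) C (by
      intro p hp
      obtain ⟨u, -, rfl⟩ := List.mem_map.1 hp
      exact ⟨h _ _, h _ _⟩)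
    refine ⟨D, ?_, ?_⟩
    · rw [List.length_map, Finset.length_toList, Finset.card_univ] at hD
      omega
    · have e2 : (fun x => ((Finset.univ : Finset P.State).toList.map
          (fun u => (RB P t c u, RB P t (nxt u) r))).any (fun p => p.1 x && p.2 x)) =
          RB P (t + 1) q r := by
        funext x
        rw [List.any_map, Bool.eq_iff_iff, List.any_eq_true]
        have e3 : RB P (t + 1) q r x = true ↔ ∃ u, RP P x t c u ∧ RP P x t (nxt u) r := by
          unfold RB
          rw [decide_eq_true_iff, RP_call e]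
        rw [e3]
        constructor
        · rintro ⟨u, -, hu⟩
          simp only [Function.comp_apply, Bool.and_eq_true, RB, decide_eq_true_eq] at hu
          exact ⟨u, hu⟩
        · rintro ⟨u, hu⟩
          refine ⟨u, by simp, ?_⟩
          simp only [Function.comp_apply, Bool.and_eq_true, RB, decide_eq_true_eq]
          exact hu
      rw [← e2]
      exact h3

theorem RB_pairs (P : Prog V) (t : ℕ) (l : List (P.State × P.State)) :
    ∀ C : Circuit V, (∀ q r, Has C (RB P t q r)) → ∃ D : Circuit V,
      D.length ≤ l.length * (2 * Fintype.card P.State + 7) ∧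
      ∀ p ∈ l, Has (C ++ D) (RB P (t + 1) p.1 p.2) := by
  induction l with
  | nil => intro C _; exact ⟨[], by simp, by simp⟩
  | cons p l ih =>
    intro C h
    obtain ⟨D, hD, h1⟩ := ih C h
    obtain ⟨D', hD', h2⟩ := RB_step P t (C ++ D) (fun q r => (h q r).ext D) p.1 p.2
    refine ⟨D ++ D', ?_, ?_⟩
    · rw [List.length_append, List.length_cons, add_mul, one_mul]
      exact Nat.add_le_add hD hD'
    · intro p' hp'
      rw [← List.append_assoc]
      rcases List.mem_cons.1 hp' with rfl | hp'
      · exact h2
      · exact (h1 _ hp').ext D'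

theorem RB_iter (P : Prog V) (t : ℕ) : ∃ C : Circuit V,
    C.length ≤ 1 + t * (Fintype.card P.State ^ 2 * (2 * Fintype.card P.State + 7)) ∧
      ∀ q r, Has C (RB P t q r) := by
  induction t with
  | zero =>
    refine ⟨[Node.const false], by simp, fun q r => ?_⟩
    have h := has_last ([] : Circuit V) (Node.const false) (RB P 0 q r) (fun x => by
      have h0 : ¬ RP P x 0 q r := fun h => h
      simp only [Node.val, RB, h0, decide_false])
    simpa using h
  | succ t ih =>
    obtain ⟨C, hC, h⟩ := ih
    obtain ⟨D, hD, h1⟩ := RB_pairs P t (Finset.univ : Finset (P.State × P.State)).toList C h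
    rw [Finset.length_toList, Finset.card_univ, Fintype.card_prod, ← sq] at hD
    refine ⟨C ++ D, ?_, fun q r => h1 (q, r) (by simp)⟩
    rw [List.length_append, add_mul, one_mul]
    omega

/-- every program with recursion is a circuit of polynomial size -/
theorem sim2 (P : Prog V) : ∃ C : Circuit V,
    C.length ≤ 16 * Fintype.card P.State ^ 5 ∧
      ∀ x : V → Bool, C.out x = true ↔ ∃ L, P.Accepts x L := by
  classical
  obtain ⟨C, hC, h⟩ := RB_iter P (Fintype.card P.State ^ 2)
  obtain ⟨D, hD, h1⟩ := has_or (((Finset.univ : Finset P.State).filter P.acc).toList.map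
      (fun u => (RB P (Fintype.card P.State ^ 2) P.start u,
        RB P (Fintype.card P.State ^ 2) P.start u))) C (by
      intro p hp
      obtain ⟨u, -, rfl⟩ := List.mem_map.1 hp
      exact ⟨h _ _, h _ _⟩)
  rw [List.length_map, Finset.length_toList] at hD
  obtain ⟨i, hi, hx⟩ := h1
  refine ⟨C ++ D ++ [Node.gate (fun a _ => a) i i], ?_, fun x => ?_⟩
  · have hm : 1 ≤ Fintype.card P.State := Fintype.card_pos_iff.2 ⟨P.start⟩
    have h2 : ((Finset.univ : Finset P.State).filter P.acc).card ≤ Fintype.card P.State :=
      Finset.card_le_univ _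
    simp only [List.length_append, List.length_cons, List.length_nil]
    generalize Fintype.card P.State = m at *
    have h3 : m ^ 2 * (m ^ 2 * (2 * m + 7)) ≤ 9 * m ^ 5 := by
      have : m ^ 2 * (m ^ 2 * (2 * m + 7)) = m ^ 4 * (2 * m + 7) := by ring
      rw [this]
      calc m ^ 4 * (2 * m + 7) ≤ m ^ 4 * (9 * m) := Nat.mul_le_mul_left _ (by omega)
        _ = 9 * m ^ 5 := by ring
    have h4 : m ≤ m ^ 5 := Nat.le_self_pow (by norm_num) m
    have h5 : 1 ≤ m ^ 5 := Nat.one_le_pow _ _ hm
    omega
  · have h2 : Circuit.out (C ++ D ++ [Node.gate (fun a _ => a) i i]) x =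
        (Circuit.vals (C ++ D) x).getD i false := by
      unfold Circuit.out
      rw [vals_append]
      simp [Node.val]
    rw [h2, hx, List.any_eq_true]
    constructor
    · rintro ⟨p, hp, hpx⟩
      obtain ⟨u, hu, rfl⟩ := List.mem_map.1 hp
      rw [Finset.mem_toList, Finset.mem_filter] at hu
      simp only [Bool.and_self, RB, decide_eq_true_eq] at hpx
      obtain ⟨L, hL⟩ := (RP_all P x _ _).2 hpx
      exact ⟨L, u, hu.2, hL⟩
    · rintro ⟨L, u, hu, hL⟩
      have h3 := (RP_all P x _ _).1 ⟨L, hL⟩
      refine ⟨_, List.mem_map.2 ⟨u, ?_, rfl⟩, ?_⟩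
      · rw [Finset.mem_toList, Finset.mem_filter]
        exact ⟨Finset.mem_univ _, hu⟩
      · simp only [Bool.and_self, RB, decide_eq_true_eq]
        exact h3

end Pool.Agent.V8H51.RS
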