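import Pool.Agent.V8H51.RS.CnfR
import Pool.Agent.H538R4.SP.Sat

/-!
# 3-SAT is hard for programs with recursion which read linearly many bits
-/

set_option autoImplicit false

open Finset

namespace Pool.Agent.V8H51.RS

open Pool.Agent.H554R2.Sem Pool.Agent.H554R2.Coin Pool.Agent.H554R2.Cnf Pool.Agent.H538R4.SP

section

variable {V : Type} {n : ℕ}

/-- The program in which the variables outside the range of `p` have the values given by `b`. -/
@[reducible] noncomputable def fixR (p : Fin n → V) (b : V → Bool) (P : Prog V) :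
    Prog (Fin n) where
  State := Option P.State
  start := some P.start
  act := fun o => match o with
    | none => Act.ret
    | some q => match P.act q with
      | Act.read v nxt => match idx p v with
        | some i => Act.read i (fun β => some (nxt β))
        | none => Act.call none (fun _ => some (nxt (b v)))
      | Act.call c nxt => Act.call (some c) (fun r => match r with
        | some r => some (nxt r)
        | none => none)
      | Act.ret => Act.ret
  acc := fun o => ∃ q, o = some q ∧ P.acc q

theorem fixR_none (p : Fin n → V) (b : V → Bool) (P : Prog V) :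
    (fixR p b P).act none = Act.ret := rfl

theorem fixR_read {p : Fin n → V} {b : V → Bool} {P : Prog V} {q : P.State} {v : V}
    {nxt : Bool → P.State} {i : Fin n} (e : P.act q = Act.read v nxt) (h : idx p v = some i) :
    (fixR p b P).act (some q) = Act.read i (fun β => some (nxt β)) := by
  simp only [e, h]

theorem fixR_skip {p : Fin n → V} {b : V → Bool} {P : Prog V} {q : P.State} {v : V}
    {nxt : Bool → P.State} (e : P.act q = Act.read v nxt) (h : idx p v = none) :
    (fixR p b P).act (some q) = Act.call none (fun _ => some (nxt (b v))) := by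
  simp only [e, h]

theorem fixR_call {p : Fin n → V} {b : V → Bool} {P : Prog V} {q c : P.State}
    {nxt : P.State → P.State} (e : P.act q = Act.call c nxt) :
    (fixR p b P).act (some q) = Act.call (some c) (fun r => match r with
        | some r => some (nxt r)
        | none => none) := by
  simp only [e]

theorem fixR_ret {p : Fin n → V} {b : V → Bool} {P : Prog V} {q : P.State}
    (e : P.act q = Act.ret) : (fixR p b P).act (some q) = Act.ret := by
  simp only [e]

theorem idx_none {p : Fin n → V} {v : V} (h : idx p v = none) : ∀ i, p i ≠ v := by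
  classical
  intro i hi
  unfold idx at h
  rw [dif_pos ⟨i, hi⟩] at h
  cases h

theorem idx_some' {p : Fin n → V} {v : V} {i : Fin n} (h : idx p v = some i) : p i = v := by
  classical
  unfold idx at h
  split_ifs at h with h1
  rw [← Option.some_injective _ h]
  exact h1.choose_spec

theorem fixR_complete {p : Fin n → V} (hp : Function.Injective p) {b : V → Bool} {P : Prog V}
    {x : Pt n} {q r : P.State} {L : List V} (h : Run P (plug p b x) q L r) :
    Run (fixR p b P) x (some q) (L.filterMap (idx p)) (some r) := by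
  induction h with
  | ret e => exact Run.ret (fixR_ret e)
  | @read q v nxt L r e _ ih =>
    rw [List.filterMap_cons]
    cases hv : idx p v with
    | none =>
      simp only
      have h1 : Run (fixR p b P) x none [] none := Run.ret (fixR_none p b P)
      have h2 : plug p b x v = b v := plug_other p b x v (idx_none hv)
      rw [h2] at ih
      exact Run.call (L := []) (r := none) (fixR_skip e hv) h1 ih
    | some i =>
      simp only
      have h2 : plug p b x v = x i := by
        rw [← idx_some' hv]
        exact plug_apply p hp b x i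
      rw [h2] at ih
      exact Run.read (fixR_read e hv) ih
  | @call q c nxt L L' r s e _ _ ih1 ih2 =>
    rw [List.filterMap_append]
    refine Run.call (P := fixR p b P) (c := (some c : Option P.State))
      (r := (some r : Option P.State)) (fixR_call e) ih1 ?_
    exact ih2

theorem fixR_sound {p : Fin n → V} (hp : Function.Injective p) {b : V → Bool} {P : Prog V}
    {x : Pt n} {o o' : (fixR p b P).State} {l : List (Fin n)} (h : Run (fixR p b P) x o l o') :
    ∀ q : P.State, o = some q → ∃ (r : P.State) (L : List V), o' = some r ∧ Run P (plug p b x) q L r := by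
  induction h with
  | @ret o e =>
    intro q hq
    subst hq
    cases e' : P.act q with
    | ret => exact ⟨q, [], rfl, Run.ret e'⟩
    | read v nxt =>
      cases hv : idx p v with
      | none => rw [fixR_skip e' hv] at e; cases e
      | some i => rw [fixR_read e' hv] at e; cases e
    | call c nxt => rw [fixR_call e'] at e; cases e
  | @read o i nxt L r e _ ih =>
    intro q hq
    subst hq
    cases e' : P.act q with
    | ret => rw [fixR_ret e'] at e; cases e
    | read v nxt' =>
      cases hv : idx p v with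
      | none => rw [fixR_skip e' hv] at e; cases e
      | some j =>
        rw [fixR_read e' hv] at e
        cases e
        obtain ⟨r', L', h1, h2⟩ := ih (nxt' (x i)) rfl
        refine ⟨r', v :: L', h1, Run.read e' ?_⟩
        have h3 : plug p b x v = x i := by
          rw [← idx_some' hv]
          exact plug_apply p hp b x i
        rw [h3]
        exact h2
    | call c nxt' => rw [fixR_call e'] at e; cases e
  | @call o c nxt L L' r s e h1 _ ih1 ih2 =>
    intro q hq
    subst hq
    cases e' : P.act q with
    | ret => rw [fixR_ret e'] at e; cases e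
    | read v nxt' =>
      cases hv : idx p v with
      | none =>
        rw [fixR_skip e' hv] at e
        cases e
        obtain ⟨r', L2, h3, h4⟩ := ih2 (nxt' (b v)) rfl
        refine ⟨r', v :: L2, h3, Run.read e' ?_⟩
        rw [plug_other p b x v (idx_none hv)]
        exact h4
      | some j => rw [fixR_read e' hv] at e; cases e
    | call c' nxt' =>
      rw [fixR_call e'] at e
      cases e
      obtain ⟨r', L2, h3, h4⟩ := ih1 c' rfl
      subst h3
      obtain ⟨r2, L3, h5, h6⟩ := ih2 (nxt' r') rfl
      exact ⟨r2, L2 ++ L3, h5, Run.call e' h4 h6⟩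

end

theorem genR (k : ℕ) : ∃ D : ℕ, 0 < D ∧ ∀ (V : Type) [BEq V] [LawfulBEq V]
    (Sol : (V → Bool) → Prop) (n : ℕ) (p : Fin n → V), Function.Injective p →
    (∀ F : Finset (Finset (Fin n × Bool)), (∀ c ∈ F, c.card ≤ D) → F.card ≤ D * n →
      ∃ b : V → Bool, ∀ x : Pt n, Sol (plug p b x) ↔ Models F x) →
    ∀ q : ℕ, q ≤ n / D → ∃ b : V → Bool, ∀ P : Prog V,
      (∀ (x : Pt n) L, P.Accepts (plug p b x) L → Sol (plug p b x)) →
      Nat.card {x : Pt n // Sol (plug p b x)} ≤ 2 ^ q *
        Nat.card {x : Pt n // ∃ L, P.Accepts (plug p b x) L ∧ ∑ i, L.count (p i) ≤ k * n} →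
      2 ^ q ≤ Fintype.card P.State + 1 := by
  classical
  obtain ⟨D, hD, h⟩ := final_cnfR k
  refine ⟨D, hD, fun V _ _ Sol n p hp hred q hq => ?_⟩
  rcases Nat.lt_or_ge n D with hn | hn
  · rw [Nat.div_eq_of_lt hn] at hq
    have : q = 0 := by omega
    rw [this]
    exact ⟨fun _ => true, fun P _ _ => by simp⟩
  · obtain ⟨F, hF1, hF2, hF3⟩ := h n hn
    obtain ⟨b, hx⟩ := hred F hF2 hF1
    refine ⟨b, fun P hP hl => ?_⟩
    by_contra hlt
    push Not at hlt
    have hc : Fintype.card (fixR p b P).State = Fintype.card P.State + 1 := Fintype.card_option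
    have h1 := hF3 (fixR p b P) (by
      rw [hc]
      exact lt_of_lt_of_le hlt (Nat.pow_le_pow_right (by norm_num) hq)) (by
      rintro x l ⟨o, ⟨r, rfl, hr⟩, h3⟩
      obtain ⟨r', L, h4, h5⟩ := fixR_sound hp h3 P.start rfl
      rw [← hx x]
      rw [← Option.some_injective _ h4] at h5
      exact hP x L ⟨r, hr, h5⟩)
    have e3 : Nat.card {x : Pt n // Models F x} = Nat.card {x : Pt n // Sol (plug p b x)} :=
      Nat.card_congr (Equiv.subtypeEquivRight (fun x => (hx x).symm))
    have h3 : Nat.card {x : Pt n // ∃ L, P.Accepts (plug p b x) L ∧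
          ∑ i, L.count (p i) ≤ k * n} ≤
        Nat.card {x : Pt n // ∃ l, (fixR p b P).Accepts x l ∧ l.length ≤ k * n} := by
      refine Nat.card_le_card_of_injective (fun y => ⟨y.1, ?_⟩) ?_
      · obtain ⟨L, ⟨r, h4, h5⟩, h6⟩ := y.2
        exact ⟨L.filterMap (idx p), ⟨some r, ⟨r, rfl, h4⟩, fixR_complete hp h5⟩,
          by rw [idx_length p hp]; exact h6⟩
      · intro y z hyz
        exact Subtype.ext (by simpa using hyz)
    have h4 := hl.trans (Nat.mul_le_mul (Nat.pow_le_pow_right (n := 2) (by norm_num) hq) h3)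
    exact absurd (e3.le.trans h4) (not_le.2 h1)

/-- Averaging over the members of a family. -/
theorem averageR {X R : Type} [Fintype X] [Fintype R] [Nonempty R] (A : R → X → Prop) (q N : ℕ)
    (h : Nat.card R * N ≤ 2 ^ q * Nat.card {u : R × X // A u.1 u.2}) :
    ∃ r, N ≤ 2 ^ q * Nat.card {x // A r x} := by
  classical
  by_contra hc
  push Not at hc
  have e2 : ∀ r, Nat.card {x // A r x} = ∑ x, if A r x then 1 else 0 := by
    intro r
    rw [Nat.card_eq_fintype_card, Fintype.card_subtype, Finset.card_filter]
  have e3 : Nat.card {u : R × X // A u.1 u.2} = ∑ r, Nat.card {x // A r x} := by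
    rw [Nat.card_eq_fintype_card, Fintype.card_subtype, Finset.card_filter,
      Fintype.sum_prod_type]
    exact Finset.sum_congr rfl (fun r _ => (e2 r).symm)
  have h3 : ∑ r : R, 2 ^ q * Nat.card {x // A r x} < ∑ _r : R, N :=
    Finset.sum_lt_sum_of_nonempty univ_nonempty (fun r _ => hc r)
  rw [Finset.sum_const, Finset.card_univ, smul_eq_mul, ← Finset.mul_sum, ← e3,
    ← Nat.card_eq_fintype_card] at h3
  omega

theorem finalR (k : ℕ) : ∃ D : ℕ, 0 < D ∧ ∀ (n M ℓ : ℕ) (a : Fin n ↪ Fin M), D * n ≤ M →
    D * n ≤ 2 ^ ℓ → ∃ b : Idx M ℓ → Bool, ∀ (R : Type) [Fintype R] [Nonempty R]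
      (U : R → Prog (Idx M ℓ)),
      (∀ r (x : Pt n) L, (U r).Accepts (plug (fun i => sgn ℓ (a i)) b x) L →
        Sat3 (plug (fun i => sgn ℓ (a i)) b x)) →
      Nat.card R * Nat.card {x : Pt n // Sat3 (plug (fun i => sgn ℓ (a i)) b x)} ≤ 2 ^ (n / D) *
        Nat.card {u : R × Pt n // ∃ L, (U u.1).Accepts (plug (fun i => sgn ℓ (a i)) b u.2) L ∧
          ∑ i, L.count (sgn ℓ (a i)) ≤ k * n} →
      ∃ r, 2 ^ (n / D) ≤ Fintype.card (U r).State := by
  obtain ⟨D1, hD1, h1⟩ := genR k
  refine ⟨(2 * D1 + 2) * (2 * D1 + 2), by positivity, fun n M ℓ a hM hℓ => ?_⟩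
  set D := (2 * D1 + 2) * (2 * D1 + 2) with hD
  have hD1D : 2 * D1 ≤ D := by rw [hD]; nlinarith
  rcases Nat.eq_zero_or_pos (n / D) with h0 | hpos
  · rw [h0]
    exact ⟨fun _ => true, fun R _ _ U _ _ =>
      ⟨Classical.arbitrary R, Fintype.card_pos_iff.2 ⟨(U _).start⟩⟩⟩
  have hn0 : 0 < n := by
    rcases Nat.eq_zero_or_pos n with h | h
    · rw [h] at hpos
      simp at hpos
    · exact h
  have hp : Function.Injective (fun i => (sgn ℓ (a i) : Idx M ℓ)) :=
    fun i j h => a.injective (sgn_inj h)
  have hq : n / D + 1 ≤ n / D1 := by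
    have h2 : n / D ≤ n / (2 * D1) := Nat.div_le_div_left hD1D (by omega)
    have h3 : 2 * (n / (2 * D1)) ≤ n / D1 := by
      rw [Nat.le_div_iff_mul_le hD1]
      calc 2 * (n / (2 * D1)) * D1 = 2 * D1 * (n / (2 * D1)) := by ring
        _ ≤ n := Nat.mul_div_le n _
    omega
  obtain ⟨b, hb⟩ := h1 (Idx M ℓ) Sat3 n _ hp (fun F hF hFc => by
      have h3 : n + 1 + (D1 + 1) * F.card ≤ D * n := by
        have h4 : (D1 + 1) * F.card ≤ (D1 + 1) * (D1 * n) :=
          Nat.mul_le_mul_left _ hFc
        have h5 : D * n = (D1 + 1) * (D1 * n) + (3 * D1 ^ 2 + 7 * D1 + 4) * n := by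
          rw [hD]; ring
        have h6 : n + 1 ≤ (3 * D1 ^ 2 + 7 * D1 + 4) * n := by nlinarith
        omega
      exact reduction_set F hF (h3.trans hM) (h3.trans hℓ) a a.injective) (n / D + 1) hq
  refine ⟨b, fun R _ _ U hU hl => ?_⟩
  obtain ⟨r, hr⟩ := averageR
    (fun r (x : Pt n) => ∃ L, (U r).Accepts (plug (fun i => sgn ℓ (a i)) b x) L ∧
          ∑ i, L.count (sgn ℓ (a i)) ≤ k * n) (n / D) _ hl
  refine ⟨r, ?_⟩
  have h5 := hb (U r) (hU r) (hr.trans (Nat.mul_le_mul_right _
    (Nat.pow_le_pow_right (by norm_num) (Nat.le_succ _))))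
  rw [pow_succ] at h5
  have h6 : 1 ≤ 2 ^ (n / D) := Nat.one_le_two_pow
  omega

end Pool.Agent.V8H51.RS
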