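import Pool.Agent.V8H51.RS.Dec
import Pool.Agent.H554R2.Lin.Defs

/-!
# The blocks of a program with recursion
-/

set_option autoImplicit false

open Finset

namespace Pool.Agent.V8H51.RS

open Pool.Agent.H554R2.Sem Pool.Agent.H554R2.Lin

section

variable {n : ℕ} (P : Prog (Fin n)) (s : ℕ)

open Classical in
/-- the bits read in a piece -/
noncomputable def rd (o : Option (Piece P)) (x : Pt n) : Finset (Fin n) :=
  match o with
  | none => ∅
  | some p => if h : ∃ L : List (Fin n), RunH P x p.2.2 p.1 L p.2.1 ∧ L.length ≤ s then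
      h.choose.toFinset else ∅

variable {P s}

theorem rd_eq {p : Piece P} {x : Pt n} {L : List (Fin n)} (h : RunH P x p.2.2 p.1 L p.2.1)
    (hL : L.length ≤ s) : rd P s (some p) x = L.toFinset := by
  have h1 : ∃ L : List (Fin n), RunH P x p.2.2 p.1 L p.2.1 ∧ L.length ≤ s := ⟨L, h, hL⟩
  have h2 := (h1.choose_spec.1.det h).1
  simp only [rd]
  rw [dif_pos h1, h2]

/-- the blocks of a class -/
theorem blk (ρ : ℕ) (κ : Fin ρ → Option (Piece P)) :
    ∃ B : Blk n ρ s, ∀ x : Pt n, x ∈ B.K ↔ ∀ j p, κ j = some p → Holds P s x p := by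
  classical
  refine ⟨{
    K := univ.filter fun x : Pt n => ∀ j p, κ j = some p → Holds P s x p
    Rd := fun j x => rd P s (κ j) x
    size := ?_
    det := ?_
    splice := ?_ }, ?_⟩
  · intro x hx j
    cases hκ : κ j with
    | none => simp [rd]
    | some p =>
      obtain ⟨L, h1, h2⟩ := (Finset.mem_filter.1 hx).2 j p hκ
      rw [rd_eq h1 h2]
      exact (List.toFinset_card_le L).trans h2
  · intro x hx y hy j hxy
    cases hκ : κ j with
    | none => simp [rd]
    | some p =>
      obtain ⟨L, h1, h2⟩ := (Finset.mem_filter.1 hx).2 j p hκ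
      obtain ⟨L', h3, h4⟩ := (Finset.mem_filter.1 hy).2 j p hκ
      rw [hκ] at hxy
      rw [rd_eq h1 h2, rd_eq h3 h4] at hxy ⊢
      have h5 := h1.agree (z := fun i => if i ∈ L then x i else y i) (by
        intro i hi
        simp only [if_pos hi])
      have h6 := h3.agree (z := fun i => if i ∈ L then x i else y i) (by
        intro i hi
        by_cases hi2 : i ∈ L
        · simp only [if_pos hi2]
          exact hxy i (List.mem_toFinset.2 hi2) (List.mem_toFinset.2 hi)
        · simp only [if_neg hi2])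
      rw [(h5.det h6).1]
  · intro X hX z hz
    have key : ∀ j p, κ j = some p → Holds P s z p ∧ rd P s (some p) z = rd P s (some p) (X j) := by
      intro j p hκ
      obtain ⟨L, h1, h2⟩ := (Finset.mem_filter.1 (hX j)).2 j p hκ
      have h3 := hz j
      rw [hκ, rd_eq h1 h2] at h3
      have h4 := h1.agree (z := z) (fun i hi => h3 i (List.mem_toFinset.2 hi))
      exact ⟨⟨L, h4, h2⟩, by rw [rd_eq h4 h2, rd_eq h1 h2]⟩
    refine ⟨?_, ?_⟩
    · rw [Finset.mem_filter]
      exact ⟨Finset.mem_univ _, fun j p hκ => (key j p hκ).1⟩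
    · intro j
      cases hκ : κ j with
      | none => simp [rd]
      | some p => exact (key j p hκ).2
  · intro x
    simp

/-- the blocks of a program with recursion -/
theorem blocksR {ρ m : ℕ} (hρ : 1 ≤ ρ) (hs : 1 ≤ s) (hm : 4 * m < (ρ + 1) * s)
    (G : Finset (Pt n)) (hG : ∀ x ∈ G, ∃ L, P.Accepts x L ∧ L.length ≤ m) :
    ∃ B : Blk n ρ s, G.card ≤ (Fintype.card (Piece P) + 1) ^ ρ * B.K.card ∧
      ∀ x ∈ B.K, ∃ L, P.Accepts x L := by
  classical
  have h1 : ∀ x : Pt n, ∃ T : List (Piece P), x ∈ G → T.length ≤ ρ ∧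
      (∀ p ∈ T, Holds P s x p) ∧ ∃ r, P.acc r ∧ Cl P T P.start r := by
    intro x
    by_cases hx : x ∈ G
    · obtain ⟨L, ⟨r, hr, hL⟩, hLm⟩ := hG x hx
      obtain ⟨T, h2, h3, h4⟩ := few hs hL
      refine ⟨T, fun _ => ⟨?_, h2, r, hr, h3⟩⟩
      rcases h4 with h4 | h4
      · omega
      · have h5 : T.length * s < (ρ + 1) * s := by omega
        have := lt_of_mul_lt_mul_right h5 (Nat.zero_le s)
        omega
    · exact ⟨[], fun h => absurd h hx⟩
  choose T hT using h1
  let cls : Pt n → (Fin ρ → Option (Piece P)) := fun x j => (T x)[(j : ℕ)]?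
  obtain ⟨κ, _, hκ⟩ := Finset.exists_max_image (univ : Finset (Fin ρ → Option (Piece P)))
    (fun κ => (G.filter fun x => cls x = κ).card) ⟨fun _ => none, Finset.mem_univ _⟩
  have h2 : G.card = ∑ κ' : Fin ρ → Option (Piece P), (G.filter fun x => cls x = κ').card :=
    Finset.card_eq_sum_card_fiberwise fun x _ => Finset.mem_univ _
  have h3 : G.card ≤ (Fintype.card (Piece P) + 1) ^ ρ * (G.filter fun x => cls x = κ).card := by
    rw [h2]
    refine (Finset.sum_le_card_nsmul _ _ _ hκ).trans (le_of_eq ?_)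
    rw [Finset.card_univ, smul_eq_mul, Fintype.card_fun, Fintype.card_fin, Fintype.card_option]
  rcases (G.filter fun x => cls x = κ).eq_empty_or_nonempty with hne | ⟨x0, hx0⟩
  · rw [hne, Finset.card_empty, mul_zero, Nat.le_zero] at h3
    refine ⟨{
      K := ∅
      Rd := fun _ _ => ∅
      size := by simp
      det := by simp
      splice := fun X hX => absurd (hX ⟨0, hρ⟩) (Finset.notMem_empty _) }, by rw [h3]; simp, by simp⟩
  · obtain ⟨B, hB⟩ := blk (s := s) ρ κ
    refine ⟨B, h3.trans (Nat.mul_le_mul_left _ (Finset.card_le_card ?_)), ?_⟩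
    · intro x hx
      obtain ⟨hxG, hxc⟩ := Finset.mem_filter.1 hx
      rw [hB]
      intro j p hj
      refine (hT x hxG).2.1 p ?_
      rw [← hxc] at hj
      exact List.mem_of_getElem? hj
    · intro x hx
      rw [hB] at hx
      obtain ⟨hxG, hxc⟩ := Finset.mem_filter.1 hx0
      obtain ⟨h4, -, r, h5, h6⟩ := hT x0 hxG
      obtain ⟨L, hL⟩ := h6.sound (s := s) (x := x) (by
        intro p hp
        obtain ⟨j, hj, hjp⟩ := List.mem_iff_getElem.1 hp
        refine hx ⟨j, by omega⟩ p ?_
        rw [← hxc]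
        change (T x0)[j]? = some p
        rw [List.getElem?_eq_getElem hj, hjp])
      exact ⟨L, r, h5, hL.to_run rfl⟩

end

end Pool.Agent.V8H51.RS
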