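import Pool.Agent.V8H51.RS.Defs

/-!
# Boolean circuits: definitions
-/

set_option autoImplicit false

namespace Pool.Agent.V8H51.RS

/-- A node of a circuit over the set `V` of input bits: an input bit, a constant, or an arbitrary
Boolean function of the values of the nodes number `i` and number `j`. -/
inductive Node (V : Type) where
  | input (v : V)
  | const (b : Bool)
  | gate (f : Bool → Bool → Bool) (i j : ℕ)

/-- The value of a node, `w` being the list of the values of the earlier nodes; a node which does
not precede reads as `false`. -/
def Node.val {V : Type} (x : V → Bool) (w : List Bool) : Node V → Bool
  | .input v => x v
  | .const b => b
  | .gate f i j => f (w.getD i false) (w.getD j false)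

/-- A circuit is a list of nodes. -/
abbrev Circuit (V : Type) : Type := List (Node V)

/-- The values of the nodes on the input `x`. -/
def Circuit.vals {V : Type} (C : Circuit V) (x : V → Bool) : List Bool :=
  C.foldl (fun w N => w ++ [N.val x w]) []

/-- The value of the last node, the output. -/
def Circuit.out {V : Type} (C : Circuit V) (x : V → Bool) : Bool := (C.vals x).getLastD false

/-- The input bits which are read, in this order, when the node number `i` is evaluated
recursively on the input `x`: for a gate, the node number `j` is evaluated first, and the node
number `k` is evaluated only if the value of the gate is not known then. Nothing is stored, so a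
node may be evaluated many times. -/
def Circuit.readsAt {V : Type} (C : Circuit V) (x : V → Bool) (i : ℕ) : List V :=
  match C[i]? with
  | none => []
  | some (.input v) => [v]
  | some (.const _) => []
  | some (.gate f j k) =>
    (if j < i then C.readsAt x j else []) ++
      (if f (((C.vals x).take i).getD j false) false = f (((C.vals x).take i).getD j false) true
        then [] else (if k < i then C.readsAt x k else []))
termination_by i

/-- The input bits which are read when the circuit is evaluated recursively. -/
def Circuit.reads {V : Type} (C : Circuit V) (x : V → Bool) : List V :=
  C.readsAt x (C.length - 1)

end Pool.Agent.V8H51.RS
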