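import Pool.Agent.V8H51.RS.Blocks
import Pool.Agent.H554R2.Lin.CnfLin

/-!
# Sparse CNFs are hard for programs with recursion which read linearly many bits
-/

set_option autoImplicit false

open Finset

namespace Pool.Agent.V8H51.RS

open Pool.Agent.H554R2.Sem Pool.Agent.H554R2.Coin Pool.Agent.H554R2.Cnf Pool.Agent.H554R2.Lin

theorem final_cnfR (k : ℕ) : ∃ D : ℕ, 0 < D ∧ ∀ n ≥ D,
    ∃ F : Finset (Finset (Fin n × Bool)), F.card ≤ D * n ∧ (∀ c ∈ F, c.card ≤ D) ∧
      ∀ P : Prog (Fin n), Fintype.card P.State < 2 ^ (n / D) →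
        (∀ x L, P.Accepts x L → Models F x) →
        2 ^ (n / D) * Nat.card {x // ∃ L, P.Accepts x L ∧ L.length ≤ k * n} <
          Nat.card {x : Pt n // Models F x} := by
  classical
  obtain ⟨Q, r, N, hQ, hr, hN, hmain⟩ := main_rect (8 * k + 1)
  obtain ⟨D1, hD1, hcnf⟩ := exists_cnf Q N hQ hN
  obtain ⟨E, hE⟩ : ∃ E : ℕ, E = 4 * N * (4 * r + 2) := ⟨_, rfl⟩
  obtain ⟨D, hD⟩ : ∃ D : ℕ, D = D1 + E + 4 * N + 2 * Q + r + 1 := ⟨_, rfl⟩
  have hD0 : 0 < D := by omega
  refine ⟨D, hD0, ?_⟩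
  intro n hn
  obtain ⟨F, hF1, hF2, C, hC, hCc, hCR⟩ := hcnf n (by omega)
  refine ⟨F, hF1.trans (Nat.mul_le_mul_right _ (by omega)), fun c hc => (hF2 c hc).trans (by omega),
    ?_⟩
  intro P hPs hPf
  by_contra hneg
  push Not at hneg
  set G : Finset (Pt n) := univ.filter (fun x => ∃ L, P.Accepts x L ∧ L.length ≤ k * n)
    with hG
  have hGc : Nat.card {x // ∃ L, P.Accepts x L ∧ L.length ≤ k * n} = G.card := by
    rw [Nat.card_eq_fintype_card, Fintype.card_subtype]
  have hZ : Nat.card {x : Pt n // Models F x} = C.card := by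
    rw [Nat.card_eq_fintype_card, Fintype.card_subtype]
    congr 1
    ext x
    simp only [Finset.mem_filter, Finset.mem_univ, true_and]
    exact (hC x).symm
  rw [hGc, hZ] at hneg
  -- blocks
  set s := 8 * (k * n) / r + 1 with hs
  have hs1 : 8 * (k * n) < r * s := by
    have := Nat.lt_mul_div_succ (8 * (k * n)) hr
    rw [hs]; exact this
  have hs2 : r * s ≤ (8 * k + 1) * n := by
    have h1 := Nat.mul_div_le (8 * (k * n)) r
    have h2 : r ≤ n := by omega
    rw [hs]; nlinarith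
  have hs0 : 1 ≤ s := Nat.succ_pos _
  have hs3 : 4 * (k * n) < (r + 1) * s := by
    calc 4 * (k * n) ≤ 8 * (k * n) := Nat.mul_le_mul_right _ (by norm_num)
      _ < r * s := hs1
      _ ≤ (r + 1) * s := Nat.mul_le_mul_right _ (Nat.le_succ r)
  obtain ⟨B, hB1, hB2⟩ := blocksR (P := P) (ρ := r) (s := s) (m := k * n) hr hs0 hs3 G (by
    intro x hx
    exact (Finset.mem_filter.1 hx).2)
  -- the size
  have hnD : 1 ≤ n / D := (Nat.one_le_div_iff hD0).2 hn
  have hcard : Fintype.card (Piece P) + 1 ≤ 2 ^ (4 * (n / D)) := by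
    have h1 : Fintype.card (Piece P) = Fintype.card P.State * (Fintype.card P.State *
        (Fintype.card P.State * Fintype.card P.State + 1)) := by
      rw [Fintype.card_prod, Fintype.card_prod, Fintype.card_option, Fintype.card_prod]
    rw [h1]
    have h2 : Fintype.card P.State + 1 ≤ 2 ^ (n / D) := hPs
    have h3 : (Fintype.card P.State + 1) ^ 4 ≤ 2 ^ (4 * (n / D)) := by
      rw [mul_comm, pow_mul]
      exact Nat.pow_le_pow_left h2 4
    refine le_trans ?_ h3
    generalize Fintype.card P.State = t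
    have h4 : (t + 1) ^ 4 = t * (t * (t * t + 1)) + 1 + (4 * (t * t * t) + 5 * (t * t) + 4 * t) := by
      ring
    omega
  have hexp : (8 * (n / (32 * N)) + 1) + (n / D) * (4 * r + 1) ≤ n / N := by
    rw [Nat.le_div_iff_mul_le hN]
    have h1 : 32 * N * (n / (32 * N)) ≤ n := Nat.mul_div_le n (32 * N)
    have h2 : D * (n / D) ≤ n := Nat.mul_div_le n D
    have h3 : E * (n / D) ≤ D * (n / D) := Nat.mul_le_mul_right _ (by omega)
    have h4 : 4 * (((8 * (n / (32 * N)) + 1) + (n / D) * (4 * r + 1)) * N) ≤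
        32 * N * (n / (32 * N)) + E * (n / D) := by
      rw [hE]
      have h5 : N * 1 ≤ N * (n / D) := Nat.mul_le_mul_left _ hnD
      nlinarith
    omega
  have hKbig : 2 ^ n ≤ 2 ^ (n / N) * B.K.card := by
    calc 2 ^ n ≤ 2 ^ (8 * (n / (32 * N)) + 1) * C.card := hCc
      _ ≤ 2 ^ (8 * (n / (32 * N)) + 1) * (2 ^ (n / D) * G.card) := Nat.mul_le_mul_left _ hneg
      _ ≤ 2 ^ (8 * (n / (32 * N)) + 1) *
          (2 ^ (n / D) * ((2 ^ (4 * (n / D))) ^ r * B.K.card)) := by
          apply Nat.mul_le_mul_left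
          apply Nat.mul_le_mul_left
          refine hB1.trans (Nat.mul_le_mul_right _ ?_)
          exact Nat.pow_le_pow_left hcard _
      _ = 2 ^ ((8 * (n / (32 * N)) + 1) + (n / D) * (4 * r + 1)) * B.K.card := by
          rw [← pow_mul, ← mul_assoc, ← mul_assoc, ← pow_add, ← pow_add]
          congr 2
          ring
      _ ≤ 2 ^ (n / N) * B.K.card :=
          Nat.mul_le_mul_right _ (Nat.pow_le_pow_right (by norm_num) hexp)
  obtain ⟨a, b, g, ha, hb, hga, hgb, ⟨R⟩⟩ := hmain n (by omega) s hs2 B hKbig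
  have hKC : B.K ⊆ C := by
    intro x hx
    obtain ⟨l, hl⟩ := hB2 x hx
    exact (hC x).2 (hPf x l hl)
  have hlog : ∀ e : ℕ, n ≤ Q * e → 100 * g ≤ e → n / (2 * Q) ≤ e - g := by
    intro e h1 h2
    have h3 : n / (2 * Q) ≤ e / 2 := by
      rw [Nat.div_le_iff_le_mul_add_pred (by omega)]
      have h4 : e < 2 * (e / 2) + 2 := by omega
      have h5 : Q * e ≤ Q * (2 * (e / 2) + 1) := Nat.mul_le_mul_left _ (by omega)
      have h6 : Q * (2 * (e / 2) + 1) = 2 * Q * (e / 2) + Q := by ring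
      omega
    omega
  rcases norect_rect C B.K hKC hCR R with h | h
  · have h1 : 2 ^ (a - g) ≤ R.X.card := by
      have h2 := R.nX
      have h3 : 2 ^ g * 2 ^ (a - g) ≤ 2 ^ g * R.X.card := by
        rw [← pow_add]
        have : g + (a - g) = a := by omega
        rw [this]; exact h2
      exact Nat.le_of_mul_le_mul_left h3 (by positivity)
    have h4 : 2 ^ (n / (2 * Q)) ≤ 2 ^ (a - g) := Nat.pow_le_pow_right (by norm_num) (hlog a ha hga)
    omega
  · have h1 : 2 ^ (b - g) ≤ R.Y.card := by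
      have h2 := R.nY
      have h3 : 2 ^ g * 2 ^ (b - g) ≤ 2 ^ g * R.Y.card := by
        rw [← pow_add]
        have : g + (b - g) = b := by omega
        rw [this]; exact h2
      exact Nat.le_of_mul_le_mul_left h3 (by positivity)
    have h4 : 2 ^ (n / (2 * Q)) ≤ 2 ^ (b - g) := Nat.pow_le_pow_right (by norm_num) (hlog b hb hgb)
    omega

end Pool.Agent.V8H51.RS
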