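import Pool.Agent.V8H51.RS.Defs

/-!
# The decomposition of runs into few pieces with few reads
-/

set_option autoImplicit false

namespace Pool.Agent.V8H51.RS

variable {V : Type} {P : Prog V} {x : V → Bool}

theorem RunH.det {h : Option (P.State × P.State)} {q r : P.State} {L : List V}
    (h1 : RunH P x h q L r) : ∀ {L' : List V} {r' : P.State}, RunH P x h q L' r' →
    L = L' ∧ r = r' := by
  induction h1 with
  | @hole q r e =>
    intro L' r' h2
    cases h2 with
    | hole e' =>
      rw [e] at e'
      have := Option.some_injective _ e'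
      exact ⟨rfl, congrArg Prod.snd this⟩
    | ret n _ => exact absurd e (n _)
    | read n _ _ => exact absurd e (n _)
    | call n _ _ _ => exact absurd e (n _)
  | @ret q n e =>
    intro L' r' h2
    cases h2 with
    | hole e' => exact absurd e' (n _)
    | ret _ _ => exact ⟨rfl, rfl⟩
    | read _ e' _ => rw [e] at e'; cases e'
    | call _ e' _ _ => rw [e] at e'; cases e'
  | @read q v nxt L r n e _ ih =>
    intro L' r' h2
    cases h2 with
    | hole e' => exact absurd e' (n _)
    | ret _ e' => rw [e] at e'; cases e'
    | read _ e' h3 =>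
      rw [e] at e'
      cases e'
      obtain ⟨i1, i2⟩ := ih h3
      exact ⟨by rw [i1], i2⟩
    | call _ e' _ _ => rw [e] at e'; cases e'
  | @call q c nxt L L1 r s n e _ _ ih1 ih2 =>
    intro L' r' h2
    cases h2 with
    | hole e' => exact absurd e' (n _)
    | ret _ e' => rw [e] at e'; cases e'
    | read _ e' _ => rw [e] at e'; cases e'
    | call _ e' h3 h4 =>
      rw [e] at e'
      cases e'
      obtain ⟨i1, i2⟩ := ih1 h3
      subst i2
      obtain ⟨i3, i4⟩ := ih2 h4
      exact ⟨by rw [i1, i3], i4⟩

theorem RunH.of_run {q r : P.State} {L : List V} (h : Run P x q L r) :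
    RunH P x none q L r := by
  induction h with
  | ret e => exact RunH.ret (by simp) e
  | read e _ ih => exact RunH.read (by simp) e ih
  | call e _ _ ih1 ih2 => exact RunH.call (by simp) e ih1 ih2

theorem RunH.to_run {q r : P.State} {L : List V} {h : Option (P.State × P.State)}
    (h1 : RunH P x h q L r) (hn : h = none) : Run P x q L r := by
  induction h1 with
  | hole e => rw [hn] at e; cases e
  | ret _ e => exact Run.ret e
  | read _ e _ ih => exact Run.read e ih
  | call _ e _ _ ih1 ih2 => exact Run.call e ih1 ih2

theorem RunH.agree {h : Option (P.State × P.State)} {q r : P.State} {L : List V} {z : V → Bool}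
    (h1 : RunH P x h q L r) (hz : ∀ i ∈ L, z i = x i) : RunH P z h q L r := by
  induction h1 with
  | hole e => exact RunH.hole e
  | ret n e => exact RunH.ret n e
  | @read q v nxt L r n e _ ih =>
    refine RunH.read n e ?_
    rw [hz v List.mem_cons_self]
    exact ih (fun i hi => hz i (List.mem_cons_of_mem _ hi))
  | @call q c nxt L L1 r s n e _ _ ih1 ih2 =>
    exact RunH.call n e (ih1 fun i hi => hz i (List.mem_append_left _ hi))
      (ih2 fun i hi => hz i (List.mem_append_right _ hi))

theorem RunH.fill {h : Option (P.State × P.State)} {q r u w : P.State} {L : List V}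
    (h1 : RunH P x h q L r) (he : h = some (u, w)) {Lu : List V} (hu : RunH P x none u Lu w) :
    ∃ L', RunH P x none q L' r := by
  induction h1 with
  | @hole q r e =>
    rw [he] at e
    cases e
    exact ⟨Lu, hu⟩
  | ret _ e => exact ⟨[], RunH.ret (by simp) e⟩
  | @read q v nxt L r n e _ ih =>
    obtain ⟨L', hL⟩ := ih
    exact ⟨v :: L', RunH.read (by simp) e hL⟩
  | @call q c nxt L L1 r s n e _ _ ih1 ih2 =>
    obtain ⟨L2, hL2⟩ := ih1
    obtain ⟨L3, hL3⟩ := ih2
    exact ⟨L2 ++ L3, RunH.call (by simp) e hL2 hL3⟩

/-- a hole may be put anywhere -/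
theorem RunH.poke {h : Option (P.State × P.State)} {q r u w : P.State} {L Lu : List V}
    (hu : RunH P x none u Lu w) (h1 : RunH P x h q L r) (hn : h = none) :
    ∃ L', RunH P x (some (u, w)) q L' r ∧ L'.length ≤ L.length := by
  have main : ∀ (q' : P.State) (L' : List V) (r' : P.State), RunH P x none q' L' r' →
      q' = u → r' = w := by
    intro q' L' r' h2 h3
    subst h3
    exact (h2.det hu).2
  induction h1 with
  | hole e => rw [hn] at e; cases e
  | @ret q _ e =>
    by_cases hq : q = u
    · have := main q _ _ (RunH.ret (by simp) e) hq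
      subst hq
      rw [this]
      exact ⟨[], RunH.hole rfl, le_rfl⟩
    · refine ⟨[], RunH.ret ?_ e, le_rfl⟩
      intro r h2
      exact hq (congrArg Prod.fst (Option.some_injective _ h2)).symm
  | @read q v nxt L r _ e h2 ih =>
    obtain ⟨L', i1, i2⟩ := ih
    by_cases hq : q = u
    · have h3 := main q (v :: L) r (RunH.read (by simp) e (by rw [← hn]; exact h2)) hq
      subst hq
      rw [h3]
      exact ⟨[], RunH.hole rfl, by simp⟩
    · refine ⟨v :: L', RunH.read ?_ e i1, by simp [i2]⟩
      intro r h3
      exact hq (congrArg Prod.fst (Option.some_injective _ h3)).symm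
  | @call q c nxt L L1 r s _ e h2 h3 ih1 ih2 =>
    obtain ⟨L2, i1, i2⟩ := ih1
    obtain ⟨L3, i3, i4⟩ := ih2
    by_cases hq : q = u
    · have h4 := main q (L ++ L1) s (RunH.call (by simp) e (by rw [← hn]; exact h2)
        (by rw [← hn]; exact h3)) hq
      subst hq
      rw [h4]
      exact ⟨[], RunH.hole rfl, by simp⟩
    · refine ⟨L2 ++ L3, RunH.call ?_ e i1 i3, by simp only [List.length_append]; omega⟩
      intro r h5
      exact hq (congrArg Prod.fst (Option.some_injective _ h5)).symm

theorem Cl.weaken {T T' : List (Piece P)} {q r : P.State} (h : Cl P T q r)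
    (hs : ∀ p ∈ T, p ∈ T') : Cl P T' q r := by
  induction h with
  | base h => exact Cl.base (hs _ h)
  | step h _ ih => exact Cl.step (hs _ h) ih
  | call e _ _ ih1 ih2 => exact Cl.call e ih1 ih2

theorem Cl.sound {s : ℕ} {T : List (Piece P)} (hT : ∀ p ∈ T, Holds P s x p) {q r : P.State}
    (h : Cl P T q r) : ∃ L, RunH P x none q L r := by
  induction h with
  | base h =>
    obtain ⟨L, hL, -⟩ := hT _ h
    exact ⟨L, hL⟩
  | step h _ ih =>
    obtain ⟨L, hL, -⟩ := hT _ h
    obtain ⟨Lu, hu⟩ := ih
    exact hL.fill rfl hu
  | call e _ _ ih1 ih2 =>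
    obtain ⟨L2, hL2⟩ := ih1
    obtain ⟨L3, hL3⟩ := ih2
    exact ⟨L2 ++ L3, RunH.call (by simp) e hL2 hL3⟩

/-- reading a bit before a run with a hole -/
theorem RunH.cons {q u w r : P.State} {v : V} {nxt : Bool → P.State} {L Lu Lc : List V}
    (e : P.act q = Act.read v nxt) (hq : RunH P x none q L r) (hu : RunH P x none u Lu w)
    (h : RunH P x (some (u, w)) (nxt (x v)) Lc r) :
    ∃ L', RunH P x (some (u, w)) q L' r ∧ L'.length ≤ Lc.length + 1 := by
  by_cases hqu : q = u
  · subst hqu
    rw [(hq.det hu).2]
    exact ⟨[], RunH.hole rfl, by simp⟩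
  · refine ⟨v :: Lc, RunH.read ?_ e h, by simp⟩
    intro r h2
    exact hqu (congrArg Prod.fst (Option.some_injective _ h2)).symm

/-- a call in a run with a hole -/
theorem RunH.app {q c u w r t : P.State} {nxt : P.State → P.State} {L Lu Lc Lc' : List V}
    (e : P.act q = Act.call c nxt) (hq : RunH P x none q L t) (hu : RunH P x none u Lu w)
    (h : RunH P x (some (u, w)) c Lc r) (h' : RunH P x (some (u, w)) (nxt r) Lc' t) :
    ∃ L', RunH P x (some (u, w)) q L' t ∧ L'.length ≤ Lc.length + Lc'.length := by
  by_cases hqu : q = u
  · subst hqu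
    rw [(hq.det hu).2]
    exact ⟨[], RunH.hole rfl, by simp⟩
  · refine ⟨Lc ++ Lc', RunH.call ?_ e h h', by simp⟩
    intro r h2
    exact hqu (congrArg Prod.fst (Option.some_injective _ h2)).symm

/-- the decomposition -/
theorem decomp {s : ℕ} (hs : 1 ≤ s) {h : Option (P.State × P.State)} {q r : P.State} {L : List V}
    (h1 : RunH P x h q L r) (hn : h = none) :
    L.length ≤ s ∨ ∃ (T : List (Piece P)) (u w : P.State) (Lc : List V),
      (∀ p ∈ T, Holds P s x p) ∧ Cl P T u w ∧ RunH P x (some (u, w)) q Lc r ∧
      Lc.length ≤ s ∧ T.length * s + 2 * s + 4 * Lc.length ≤ 4 * L.length := by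
  induction h1 with
  | hole e => rw [hn] at e; cases e
  | ret _ _ => left; simp
  | @read q v nxt L r _ e h2 ih =>
    subst hn
    have hq : RunH P x none q (v :: L) r := RunH.read (by simp) e h2
    rcases Nat.lt_or_ge s (v :: L).length with hlt | hge
    · right
      rw [List.length_cons] at hlt
      rcases ih with h3 | ⟨T, u, w, Lc, i1, i2, i3, i4, i5⟩
      · obtain ⟨Lc, j1, j2⟩ := RunH.cons e hq h2 (RunH.hole rfl)
        refine ⟨[(nxt (x v), r, none)], nxt (x v), r, Lc, ?_, Cl.base (by simp), j1, ?_, ?_⟩
        · intro p hp
          rw [List.mem_singleton] at hp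
          subst hp
          exact ⟨L, h2, h3⟩
        · simp only [List.length_nil, zero_add] at j2
          omega
        · simp only [List.length_nil, zero_add] at j2
          simp only [List.length_cons, List.length_nil]
          omega
      · obtain ⟨Lu, hu⟩ := i2.sound i1
        rcases Nat.lt_or_ge Lc.length s with h4 | h4
        · obtain ⟨Lc', j1, j2⟩ := RunH.cons e hq hu i3
          refine ⟨T, u, w, Lc', i1, i2, j1, by omega, ?_⟩
          simp only [List.length_cons]
          omega
        · obtain ⟨Lc', j1, j2⟩ := RunH.cons e hq h2 (RunH.hole rfl)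
          simp only [List.length_nil, zero_add] at j2
          refine ⟨(nxt (x v), r, some (u, w)) :: T, nxt (x v), r, Lc', ?_,
            Cl.step List.mem_cons_self (i2.weaken fun p hp => List.mem_cons_of_mem _ hp), j1,
            by omega, ?_⟩
          · intro p hp
            rcases List.mem_cons.1 hp with rfl | hp
            · exact ⟨Lc, i3, i4⟩
            · exact i1 p hp
          · simp only [List.length_cons]
            have : (T.length + 1) * s = T.length * s + s := by ring
            omega
    · left; exact hge
  | @call q c nxt L L1 r t _ e h2 h3 ih1 ih2 =>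
    subst hn
    have hq : RunH P x none q (L ++ L1) t := RunH.call (by simp) e h2 h3
    rcases ih1 with h4 | ⟨T, u, w, Lc, i1, i2, i3, i4, i5⟩
    · rcases ih2 with h5 | ⟨T', u', w', Lc', k1, k2, k3, k4, k5⟩
      · rcases Nat.lt_or_ge s (L ++ L1).length with hlt | hge
        · right
          rw [List.length_append] at hlt
          refine ⟨[(c, r, none), (nxt r, t, none)], q, t, [], ?_,
            Cl.call (r := r) e (Cl.base (by simp)) (Cl.base (by simp)), RunH.hole rfl, by simp, ?_⟩
          · intro p hp
            rcases List.mem_cons.1 hp with rfl | hp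
            · exact ⟨L, h2, h4⟩
            · rw [List.mem_singleton] at hp
              subst hp
              exact ⟨L1, h3, h5⟩
          · simp only [List.length_cons, List.length_nil, List.length_append]
            omega
        · left; exact hge
      · right
        obtain ⟨Lu, hu⟩ := k2.sound k1
        rcases Nat.lt_or_ge s (L.length + Lc'.length) with hlt | hge
        · refine ⟨(c, r, none) :: (nxt r, t, some (u', w')) :: T', q, t, [], ?_,
            Cl.call (r := r) e (Cl.base (by simp)) (Cl.step (by simp)
              (k2.weaken fun p hp => List.mem_cons_of_mem _ (List.mem_cons_of_mem _ hp))),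
            RunH.hole rfl, by simp, ?_⟩
          · intro p hp
            rcases List.mem_cons.1 hp with rfl | hp
            · exact ⟨L, h2, h4⟩
            · rcases List.mem_cons.1 hp with rfl | hp
              · exact ⟨Lc', k3, k4⟩
              · exact k1 p hp
          · simp only [List.length_cons, List.length_nil, List.length_append]
            have : (T'.length + 1 + 1) * s = T'.length * s + 2 * s := by ring
            omega
        · obtain ⟨L2, j1, j2⟩ := RunH.poke hu h2 rfl
          obtain ⟨L3, j3, j4⟩ := RunH.app e hq hu j1 k3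
          refine ⟨T', u', w', L3, k1, k2, j3, by omega, ?_⟩
          simp only [List.length_append]
          omega
    · obtain ⟨Lu, hu⟩ := i2.sound i1
      rcases ih2 with h5 | ⟨T', u', w', Lc', k1, k2, k3, k4, k5⟩
      · right
        rcases Nat.lt_or_ge s (Lc.length + L1.length) with hlt | hge
        · refine ⟨(c, r, some (u, w)) :: (nxt r, t, none) :: T, q, t, [], ?_,
            Cl.call (r := r) e (Cl.step (by simp)
              (i2.weaken fun p hp => List.mem_cons_of_mem _ (List.mem_cons_of_mem _ hp)))
              (Cl.base (by simp)), RunH.hole rfl, by simp, ?_⟩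
          · intro p hp
            rcases List.mem_cons.1 hp with rfl | hp
            · exact ⟨Lc, i3, i4⟩
            · rcases List.mem_cons.1 hp with rfl | hp
              · exact ⟨L1, h3, h5⟩
              · exact i1 p hp
          · simp only [List.length_cons, List.length_nil, List.length_append]
            have : (T.length + 1 + 1) * s = T.length * s + 2 * s := by ring
            omega
        · obtain ⟨L2, j1, j2⟩ := RunH.poke hu h3 rfl
          obtain ⟨L3, j3, j4⟩ := RunH.app e hq hu i3 j1
          refine ⟨T, u, w, L3, i1, i2, j3, by omega, ?_⟩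
          simp only [List.length_append]
          omega
      · right
        refine ⟨(c, r, some (u, w)) :: (nxt r, t, some (u', w')) :: (T ++ T'), q, t, [], ?_,
          Cl.call (r := r) e (Cl.step (by simp) (i2.weaken fun p hp => by simp [hp]))
            (Cl.step (by simp) (k2.weaken fun p hp => by simp [hp])), RunH.hole rfl, by simp, ?_⟩
        · intro p hp
          rcases List.mem_cons.1 hp with rfl | hp
          · exact ⟨Lc, i3, i4⟩
          · rcases List.mem_cons.1 hp with rfl | hp
            · exact ⟨Lc', k3, k4⟩
            · rcases List.mem_append.1 hp with hp | hp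
              · exact i1 p hp
              · exact k1 p hp
        · simp only [List.length_cons, List.length_nil, List.length_append]
          have : (T.length + T'.length + 1 + 1) * s = T.length * s + T'.length * s + 2 * s := by
            ring
          omega

/-- few pieces -/
theorem few {s : ℕ} (hs : 1 ≤ s) {q r : P.State} {L : List V} (h : Run P x q L r) :
    ∃ T : List (Piece P), (∀ p ∈ T, Holds P s x p) ∧ Cl P T q r ∧
      (T.length = 1 ∨ T.length * s ≤ 4 * L.length) := by
  have h1 := RunH.of_run h
  rcases decomp hs h1 rfl with h2 | ⟨T, u, w, Lc, i1, i2, i3, i4, i5⟩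
  · refine ⟨[(q, r, none)], ?_, Cl.base (by simp), Or.inl rfl⟩
    intro p hp
    rw [List.mem_singleton] at hp
    subst hp
    exact ⟨L, h1, h2⟩
  · refine ⟨(q, r, some (u, w)) :: T, ?_, Cl.step List.mem_cons_self
      (i2.weaken fun p hp => List.mem_cons_of_mem _ hp), Or.inr ?_⟩
    · intro p hp
      rcases List.mem_cons.1 hp with rfl | hp
      · exact ⟨Lc, i3, i4⟩
      · exact i1 p hp
    · simp only [List.length_cons]
      have : (T.length + 1) * s = T.length * s + s := by ring
      omega

end Pool.Agent.V8H51.RS
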