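import Mathlib

/-!
# Deterministic programs with recursion: definitions
-/

set_option autoImplicit false

namespace Pool.Agent.V8H51.RS

/-- What a program does in a state: it reads the input bit `v` and proceeds in the state `nxt b`,
`b` being the value of the bit; or it calls itself in the state `c` and, when this call has ended
in the state `r`, proceeds in the state `nxt r`; or it ends the present call. -/
inductive Act (V S : Type) where
  | read (v : V) (nxt : Bool → S)
  | call (c : S) (nxt : S → S)
  | ret

/-- A deterministic program with recursion over the set `V` of input bits. -/
structure Prog (V : Type) where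
  /-- the states -/
  State : Type
  /-- there are finitely many of them -/
  [fintype : Fintype State]
  /-- the start state -/
  start : State
  /-- what is done in a state -/
  act : State → Act V State
  /-- the accepting states -/
  acc : State → Prop

attribute [instance] Prog.fintype

/-- On the input `x` the program, started in the state `q`, reads the bits of the list `L`, in this
order and with repetitions, and the run ends in the state `r`. -/
inductive Run {V : Type} (P : Prog V) (x : V → Bool) : P.State → List V → P.State → Prop
  | ret {q : P.State} (e : P.act q = Act.ret) : Run P x q [] q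
  | read {q : P.State} {v : V} {nxt : Bool → P.State} {L : List V} {r : P.State}
      (e : P.act q = Act.read v nxt) (h : Run P x (nxt (x v)) L r) : Run P x q (v :: L) r
  | call {q c : P.State} {nxt : P.State → P.State} {L L' : List V} {r s : P.State}
      (e : P.act q = Act.call c nxt) (h : Run P x c L r) (h' : Run P x (nxt r) L' s) :
      Run P x q (L ++ L') s

/-- The program accepts the input `x`, and reads the bits of the list `L`. -/
def Prog.Accepts {V : Type} (P : Prog V) (x : V → Bool) (L : List V) : Prop :=
  ∃ r, P.acc r ∧ Run P x P.start L r

/-- Runs with a hole: if `h = some (u, w)` then every call in the state `u` ends immediately in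
`w`, and nothing is read. -/
inductive RunH {V : Type} (P : Prog V) (x : V → Bool) (h : Option (P.State × P.State)) :
    P.State → List V → P.State → Prop
  | hole {q r : P.State} (e : h = some (q, r)) : RunH P x h q [] r
  | ret {q : P.State} (n : ∀ r, h ≠ some (q, r)) (e : P.act q = Act.ret) : RunH P x h q [] q
  | read {q : P.State} {v : V} {nxt : Bool → P.State} {L : List V} {r : P.State}
      (n : ∀ r, h ≠ some (q, r))
      (e : P.act q = Act.read v nxt) (h1 : RunH P x h (nxt (x v)) L r) : RunH P x h q (v :: L) r
  | call {q c : P.State} {nxt : P.State → P.State} {L L' : List V} {r s : P.State}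
      (n : ∀ r, h ≠ some (q, r))
      (e : P.act q = Act.call c nxt) (h1 : RunH P x h c L r) (h2 : RunH P x h (nxt r) L' s) :
      RunH P x h q (L ++ L') s

/-- Pieces: `(q, r, h)` says that the run with the hole `h` from `q` ends in `r`. -/
abbrev Piece {V : Type} (P : Prog V) : Type :=
  P.State × P.State × Option (P.State × P.State)

/-- The piece holds, with at most `s` reads. -/
def Holds {V : Type} (P : Prog V) (s : ℕ) (x : V → Bool) (p : Piece P) : Prop :=
  ∃ L : List V, RunH P x p.2.2 p.1 L p.2.1 ∧ L.length ≤ s

/-- What follows from pieces. -/
inductive Cl {V : Type} (P : Prog V) (T : List (Piece P)) : P.State → P.State → Prop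
  | base {q r : P.State} (h : (q, r, none) ∈ T) : Cl P T q r
  | step {q r u w : P.State} (h : (q, r, some (u, w)) ∈ T) (h' : Cl P T u w) : Cl P T q r
  | call {q c : P.State} {nxt : P.State → P.State} {r s : P.State}
      (e : P.act q = Act.call c nxt) (h : Cl P T c r) (h' : Cl P T (nxt r) s) : Cl P T q s

end Pool.Agent.V8H51.RS
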