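import Pool.Agent.V8H51.RS.CDefs

/-!
# Circuits as programs with recursion
-/

set_option autoImplicit false

namespace Pool.Agent.V8H51.RS

variable {V : Type}

theorem vals_append (C : Circuit V) (N : Node V) (x : V → Bool) :
    Circuit.vals (C ++ [N]) x = C.vals x ++ [N.val x (C.vals x)] := by
  simp [Circuit.vals, List.foldl_append]

theorem vals_length (C : Circuit V) (x : V → Bool) : (C.vals x).length = C.length := by
  induction C using List.reverseRecOn with
  | nil => rfl
  | append_singleton C N ih => rw [vals_append]; simp [ih]

theorem vals_take (C : Circuit V) (x : V → Bool) (i : ℕ) :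
    Circuit.vals (C.take i) x = (C.vals x).take i := by
  induction C using List.reverseRecOn with
  | nil => simp [Circuit.vals]
  | append_singleton C N ih =>
    rw [vals_append]
    rcases Nat.lt_or_ge C.length i with h | h
    · rw [List.take_of_length_le (by simp; omega), vals_append, List.take_of_length_le]
      simp only [List.length_append, vals_length, List.length_cons, List.length_nil]
      omega
    · rw [List.take_append_of_le_length h, List.take_append_of_le_length (by rw [vals_length]; exact h),
        ih]

/-- the value of a node -/
theorem vals_node (C : Circuit V) (x : V → Bool) (i : ℕ) (hi : i < C.length) :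
    (C.vals x).getD i false = (C[i]).val x ((C.vals x).take i) := by
  have h1 : (C.take (i + 1)) = C.take i ++ [C[i]] := by
    rw [List.take_add_one, List.getElem?_eq_getElem hi]
    rfl
  have h2 := vals_take C x (i + 1)
  rw [h1, vals_append, vals_take] at h2
  have h3 : (C.vals x).getD i false = ((C.vals x).take (i + 1)).getD i false := by
    simp only [List.getD_eq_getElem?_getD]
    rw [List.getElem?_take_of_succ]
  rw [h3, ← h2]
  have h4 : ((C.vals x).take i).length = i := by
    rw [List.length_take, vals_length]; omega
  simp only [List.getD_eq_getElem?_getD]
  rw [List.getElem?_append_right (by rw [h4])]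
  simp [h4]

/-- The state in which the evaluation of the node `j` starts, if it precedes the node `i`. -/
def nodeState (C : Circuit V) (i : Fin C.length) (j : ℕ) : (Fin C.length × Option Bool) ⊕ Bool :=
  if h : j < i.1 then Sum.inl (⟨j, h.trans i.2⟩, none) else Sum.inr false

/-- The recursive evaluation of a circuit. -/
@[reducible] def ofC (C : Circuit V) : Prog V where
  State := (Fin C.length × Option Bool) ⊕ Bool
  start := if h : 0 < C.length then Sum.inl (⟨C.length - 1, by omega⟩, none) else Sum.inr false
  act := fun s => match s with
    | Sum.inr _ => Act.ret
    | Sum.inl (i, none) => match C[i] with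
      | Node.input v => Act.read v (fun b => Sum.inr b)
      | Node.const b => Act.call (Sum.inr b) (fun r => r)
      | Node.gate _ j _ => Act.call (nodeState C i j)
        (fun r => Sum.inl (i, some (decide (r = Sum.inr true))))
    | Sum.inl (i, some β) => match C[i] with
      | Node.gate f _ k => if f β false = f β true then
          Act.call (Sum.inr (f β true)) (fun r => r) else
          Act.call (nodeState C i k) (fun r => Sum.inr (f β (decide (r = Sum.inr true))))
      | _ => Act.ret
  acc := fun s => s = Sum.inr true

theorem ofC_fin (C : Circuit V) (x : V → Bool) (b : Bool) :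
    Run (ofC C) x (Sum.inr b) [] (Sum.inr b) := Run.ret rfl

theorem dec_inr {A : Type} [DecidableEq A] (b : Bool) :
    decide ((Sum.inr b : A ⊕ Bool) = Sum.inr true) = b := by
  cases b <;> simp

theorem take_getD (w : List Bool) (i j : ℕ) (h : j < i) :
    (w.take i).getD j false = w.getD j false := by
  simp only [List.getD_eq_getElem?_getD]
  rw [List.getElem?_take_of_lt h]

theorem take_getD' (w : List Bool) (i j : ℕ) (h : i ≤ j) :
    (w.take i).getD j false = false := by
  simp only [List.getD_eq_getElem?_getD]
  rw [List.getElem?_eq_none]
  · rfl
  · rw [List.length_take]; omega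

theorem readsAt_input {C : Circuit V} {x : V → Bool} {i : ℕ} {v : V}
    (h : C[i]? = some (Node.input v)) : C.readsAt x i = [v] := by
  rw [Circuit.readsAt, h]

theorem readsAt_const {C : Circuit V} {x : V → Bool} {i : ℕ} {b : Bool}
    (h : C[i]? = some (Node.const b)) : C.readsAt x i = [] := by
  rw [Circuit.readsAt, h]

theorem readsAt_gate {C : Circuit V} {x : V → Bool} {i j k : ℕ} {f : Bool → Bool → Bool}
    (h : C[i]? = some (Node.gate f j k)) : C.readsAt x i =
    (if j < i then C.readsAt x j else []) ++
      (if f (((C.vals x).take i).getD j false) false = f (((C.vals x).take i).getD j false) true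
        then [] else (if k < i then C.readsAt x k else [])) := by
  rw [Circuit.readsAt, h]

theorem ofC_run (C : Circuit V) (x : V → Bool) : ∀ (m : ℕ) (i : Fin C.length), i.1 = m →
    Run (ofC C) x (Sum.inl (i, none)) (C.readsAt x i.1) (Sum.inr ((C.vals x).getD i false)) := by
  intro m
  induction m using Nat.strong_induction_on with
  | _ m ih =>
    intro i hi
    have hnode : ∀ j : ℕ, Run (ofC C) x (nodeState C i j)
        (if j < i.1 then C.readsAt x j else [])
        (Sum.inr (((C.vals x).take i).getD j false)) := by
      intro j
      unfold nodeState
      by_cases hj : j < i.1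
      · rw [dif_pos hj, if_pos hj]
        have hL := ih j (by omega) ⟨j, hj.trans i.2⟩ rfl
        rw [take_getD _ _ _ hj]
        exact hL
      · rw [dif_neg hj, if_neg hj, take_getD' _ _ _ (by omega)]
        exact ofC_fin C x false
    have hv := vals_node C x i.1 i.2
    have hg : C[i.1]? = some (C[i]) := List.getElem?_eq_getElem i.2
    cases hN : C[i] with
    | input v =>
      have e : (ofC C).act (Sum.inl (i, none)) = Act.read v (fun b => Sum.inr b) := by
        simp only [hN]
      have hN' : C[i.1] = Node.input v := hN
      rw [hN] at hg
      rw [hN'] at hv
      rw [hv, readsAt_input hg]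
      exact Run.read e (ofC_fin C x _)
    | const b =>
      have e : (ofC C).act (Sum.inl (i, none)) = Act.call (Sum.inr b) (fun r => r) := by
        simp only [hN]
      have hN' : C[i.1] = Node.const b := hN
      rw [hN] at hg
      rw [hN'] at hv
      rw [hv, readsAt_const hg]
      exact Run.call (L := []) (L' := []) e (ofC_fin C x _) (ofC_fin C x _)
    | gate f j k =>
      have e : (ofC C).act (Sum.inl (i, none)) = Act.call (nodeState C i j)
        (fun r => Sum.inl (i, some (decide (r = Sum.inr true)))) := by
        simp only [hN]
      have hN' : C[i.1] = Node.gate f j k := hN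
      rw [hN] at hg
      rw [hN'] at hv
      rw [hv, readsAt_gate hg]
      have h1 := hnode j
      have h2 := hnode k
      refine Run.call e h1 ?_
      simp only [dec_inr]
      have hval : Node.val x ((C.vals x).take i) (Node.gate f j k) =
        f (((C.vals x).take i).getD j false) (((C.vals x).take i).getD k false) := rfl
      rw [hval]
      generalize ((C.vals x).take i).getD j false = u at *
      generalize ((C.vals x).take i).getD k false = w at *
      by_cases hf : f u false = f u true
      · rw [if_pos hf]
        have e2 : (ofC C).act (Sum.inl (i, some u)) =
          Act.call (Sum.inr (f u true)) (fun r => r) := by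
          simp only [hN, if_pos hf]
        have h3 : f u w = f u true := by
          cases w
          · exact hf
          · rfl
        rw [h3]
        exact Run.call (L := []) (L' := []) e2 (ofC_fin C x _) (ofC_fin C x _)
      · rw [if_neg hf]
        have e2 : (ofC C).act (Sum.inl (i, some u)) =
          Act.call (nodeState C i k) (fun r => Sum.inr (f u (decide (r = Sum.inr true)))) := by
          simp only [hN, if_neg hf]
        have h4 := Run.call (s := Sum.inr (f u w)) (L' := []) e2 h2 (by
          simp only [dec_inr]
          exact ofC_fin C x _)
        rwa [List.append_nil] at h4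

/-- every circuit is a program with recursion -/
theorem sim1 (C : Circuit V) : ∃ P : Prog V, Fintype.card P.State = 3 * C.length + 2 ∧
    ∀ x : V → Bool, ∃ r, Run P x P.start (C.reads x) r ∧ (P.acc r ↔ C.out x = true) := by
  refine ⟨ofC C, ?_, ?_⟩
  · have h1 : Fintype.card (ofC C).State = Fintype.card ((Fin C.length × Option Bool) ⊕ Bool) := rfl
    rw [h1]
    simp only [Fintype.card_sum, Fintype.card_prod, Fintype.card_fin, Fintype.card_option,
      Fintype.card_bool]
    ring
  · intro x
    rcases Nat.eq_zero_or_pos C.length with h0 | h0
    · have h1 : (ofC C).start = Sum.inr false := by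
        simp [h0]
      rw [h1]
      have h2 : C = [] := List.eq_nil_of_length_eq_zero h0
      subst h2
      have h3 : Circuit.reads ([] : Circuit V) x = [] := by
        unfold Circuit.reads
        rw [Circuit.readsAt]
        simp
      rw [h3]
      refine ⟨Sum.inr false, ofC_fin [] x false, ?_⟩
      simp [Circuit.out, Circuit.vals]
    · have h1 : (ofC C).start = Sum.inl (⟨C.length - 1, by omega⟩, none) := by
        simp [h0]
      rw [h1]
      have hL := ofC_run C x _ ⟨C.length - 1, by omega⟩ rfl
      refine ⟨_, hL, ?_⟩
      have h2 : C.out x = (C.vals x).getD (C.length - 1) false := by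
        unfold Circuit.out
        rw [List.getLastD_eq_getLast?, List.getLast?_eq_getElem?, vals_length,
          List.getD_eq_getElem?_getD]
      rw [h2]
      simp

end Pool.Agent.V8H51.RS
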